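import Mathlib

set_option autoImplicit false

namespace Pool.Agent.Results.MP_5b71d7_co.TwoDense

open Finset

/-- The family of all nonempty subsets of the ground set `Fin n`. -/
def allNonempty (n : ℕ) : Finset (Finset (Fin n)) :=
  Finset.univ.filter (fun A => A.Nonempty)

/-- `F` is union-closed over the ground set: its members are nonempty, the whole ground set is a
member, and the union of two members is a member. -/
def IsUnionClosed {n : ℕ} (F : Finset (Finset (Fin n))) : Prop :=
  F ⊆ allNonempty n ∧ Finset.univ ∈ F ∧ ∀ A ∈ F, ∀ B ∈ F, A ∪ B ∈ F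

instance decidableIsUnionClosed {n : ℕ} (F : Finset (Finset (Fin n))) :
    Decidable (IsUnionClosed F) := by
  unfold IsUnionClosed; infer_instance

/-- The closure of `F`: all nonempty `A` such that `F` together with `A` is union-closed. -/
def ucClosure {n : ℕ} (F : Finset (Finset (Fin n))) : Finset (Finset (Fin n)) :=
  (allNonempty n).filter (fun A => IsUnionClosed (insert A F))

/-- `F` is `k`-dense: `k` is the least number of closure steps leading from `F` to the family of
all nonempty sets. -/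
def IsDense {n : ℕ} (k : ℕ) (F : Finset (Finset (Fin n))) : Prop :=
  ucClosure^[k] F = allNonempty n ∧ ∀ j, j < k → ucClosure^[j] F ≠ allNonempty n

/-- Sanity check: the chain `{0}, {0,1}, {0,1,2}` over a ground set with three elements is
2-dense (and union-closed), so the notion is not vacuous. -/
lemma chain_isDense_two :
    IsUnionClosed ({{0}, {0, 1}, {0, 1, 2}} : Finset (Finset (Fin 3))) ∧
      IsDense 2 ({{0}, {0, 1}, {0, 1, 2}} : Finset (Finset (Fin 3))) := by
  unfold IsDense
  decide +kernel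

variable {n : ℕ}

lemma mem_allNonempty {A : Finset (Fin n)} : A ∈ allNonempty n ↔ A.Nonempty := by
  simp [allNonempty]

lemma mem_ucClosure {F : Finset (Finset (Fin n))} {A : Finset (Fin n)} :
    A ∈ ucClosure F ↔ A.Nonempty ∧ IsUnionClosed (insert A F) := by
  simp [ucClosure, mem_allNonempty]

/-- If the closure of `G` is everything then `G` is an up-set. -/
lemma upset_of_ucClosure_eq {G : Finset (Finset (Fin n))} (hG : ucClosure G = allNonempty n)
    (hne : ∀ B ∈ G, B.Nonempty) {B C : Finset (Fin n)} (hB : B ∈ G) (hBC : B ⊆ C) : C ∈ G := by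
  by_cases hEq : B = C
  · exact hEq ▸ hB
  obtain ⟨b, hb⟩ := hne B hB
  have hss : B ⊂ C := Finset.ssubset_iff_subset_ne.2 ⟨hBC, hEq⟩
  obtain ⟨c, hcC, hcB⟩ := Finset.exists_of_ssubset hss
  have hcb : c ≠ b := fun h => hcB (h ▸ hb)
  have hne' : (C.erase b).Nonempty := ⟨c, by simp [hcb, hcC]⟩
  have h1 : C.erase b ∈ ucClosure G := by
    rw [hG]; exact mem_allNonempty.2 hne'
  have h2 := (mem_ucClosure.1 h1).2.2.2 (C.erase b) (by simp) B (by simp [hB])
  have h3 : C.erase b ∪ B = C := by
    ext x
    simp only [Finset.mem_union, Finset.mem_erase]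
    constructor
    · rintro (h | h)
      · exact h.2
      · exact hBC h
    · intro hx
      by_cases hxb : x = b
      · right; rw [hxb]; exact hb
      · left; exact ⟨hxb, hx⟩
  rw [h3, Finset.mem_insert] at h2
  rcases h2 with h2 | h2
  · exfalso
    have : b ∈ C.erase b := by rw [← h2]; exact hBC hb
    simp at this
  · exact h2

/-- The structure of families which become full after two closures. -/
lemma chain_mem {F : Finset (Finset (Fin n))} (hF : IsUnionClosed F)
    (h2 : ucClosure (ucClosure F) = allNonempty n) {A₁ A₂ B : Finset (Fin n)}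
    (h₁ : A₁ ∈ F) (h₂ : A₂ ∈ F) (h12 : A₁ ⊂ A₂) (h2B : A₂ ⊆ B) : B ∈ F := by
  have hGne : ∀ B ∈ ucClosure F, B.Nonempty := fun B hB => (mem_ucClosure.1 hB).1
  have hA1 : A₁ ∈ ucClosure F := by
    rw [mem_ucClosure]
    refine ⟨mem_allNonempty.1 (hF.1 h₁), ?_⟩
    rw [Finset.insert_eq_of_mem h₁]
    exact hF
  have hC : A₁ ∪ (B \ A₂) ∈ ucClosure F :=
    upset_of_ucClosure_eq h2 hGne hA1 Finset.subset_union_left
  have h3 := (mem_ucClosure.1 hC).2.2.2 (A₁ ∪ (B \ A₂)) (by simp) A₂ (by simp [h₂])
  have h4 : A₁ ∪ (B \ A₂) ∪ A₂ = B := by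
    ext x
    simp only [Finset.mem_union, Finset.mem_sdiff]
    constructor
    · rintro ((h | h) | h)
      · exact h2B (h12.1 h)
      · exact h.1
      · exact h2B h
    · intro hx
      by_cases hx2 : x ∈ A₂
      · right; exact hx2
      · left; right; exact ⟨hx, hx2⟩
  rw [h4, Finset.mem_insert] at h3
  rcases h3 with h3 | h3
  · exfalso
    obtain ⟨x, hx2, hx1⟩ := Finset.exists_of_ssubset h12
    have hxB : x ∈ B := h2B hx2
    rw [h3] at hxB
    simp [hx1, hx2] at hxB
  · exact h3

/-- Boundary pairs of an up-set `U`: a member `C` with an element `i` whose removal leaves `U`. -/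
def bd (U : Finset (Finset (Fin n))) : Finset (Finset (Fin n) × Fin n) :=
  Finset.univ.filter (fun p => p.1 ∈ U ∧ p.2 ∈ p.1 ∧ p.1.erase p.2 ∉ U)

/-- Above a set `A` outside the up-set `U` there are at least `n - |A|` boundary pairs. -/
lemma card_bd_above {U : Finset (Finset (Fin n))} (hup : ∀ C ∈ U, ∀ D, C ⊆ D → D ∈ U)
    (htop : Finset.univ ∈ U) {A : Finset (Fin n)} (hA : A ∉ U) :
    n - A.card ≤ ((bd U).filter (fun p => A ⊆ p.1.erase p.2)).card := by
  classical
  -- a minimal member of `U` above `A`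
  obtain ⟨C₀, hC₀, hmin⟩ := Finset.exists_min_image (U.filter (fun C => A ⊆ C)) Finset.card
    ⟨Finset.univ, by simp [htop]⟩
  rw [Finset.mem_filter] at hC₀
  obtain ⟨hC₀U, hAC₀⟩ := hC₀
  have hmin' : ∀ i ∈ C₀, i ∉ A → C₀.erase i ∉ U := by
    intro i hi hiA hmem
    have := hmin (C₀.erase i) (by
      rw [Finset.mem_filter]
      exact ⟨hmem, Finset.subset_erase.2 ⟨hAC₀, hiA⟩⟩)
    have h2 := Finset.card_erase_lt_of_mem hi
    omega
  have hne : A ≠ C₀ := fun h => hA (h ▸ hC₀U)
  obtain ⟨i₀, hi₀, hi₀A⟩ := Finset.exists_of_ssubset (Finset.ssubset_iff_subset_ne.2 ⟨hAC₀, hne⟩)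
  -- choose a boundary pair for every direction outside `A`
  have key : ∀ j : Fin n, ∃ p : Finset (Fin n) × Fin n, j ∉ A →
      (p ∈ (bd U).filter (fun p => A ⊆ p.1.erase p.2)) ∧
      ((j ∈ C₀ ∧ p = (C₀, j)) ∨ (j ∉ C₀ ∧ p.2 = j) ∨ (j ∉ C₀ ∧ p = (insert j C₀, i₀))) := by
    intro j
    by_cases hjA : j ∈ A
    · exact ⟨(∅, j), fun h => absurd hjA h⟩
    by_cases hj : j ∈ C₀
    · refine ⟨(C₀, j), fun _ => ⟨?_, Or.inl ⟨hj, rfl⟩⟩⟩
      simp only [bd, Finset.mem_filter, Finset.mem_univ, true_and]
      exact ⟨⟨hC₀U, hj, hmin' j hj hjA⟩, Finset.subset_erase.2 ⟨hAC₀, hjA⟩⟩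
    · by_cases hex : ∃ C ∈ U, j ∈ C ∧ C.erase j ∉ U ∧ A ⊆ C.erase j
      · obtain ⟨C, hCU, hjC, hCe, hAC⟩ := hex
        refine ⟨(C, j), fun _ => ⟨?_, Or.inr (Or.inl ⟨hj, rfl⟩)⟩⟩
        simp only [bd, Finset.mem_filter, Finset.mem_univ, true_and]
        exact ⟨⟨hCU, hjC, hCe⟩, hAC⟩
      · refine ⟨(insert j C₀, i₀), fun _ => ⟨?_, Or.inr (Or.inr ⟨hj, rfl⟩)⟩⟩
        simp only [bd, Finset.mem_filter, Finset.mem_univ, true_and]
        have hij : i₀ ≠ j := fun h => hj (h ▸ hi₀)
        have hsub : A ⊆ (insert j C₀).erase i₀ :=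
          Finset.subset_erase.2 ⟨hAC₀.trans (Finset.subset_insert _ _), hi₀A⟩
        refine ⟨⟨hup C₀ hC₀U _ (Finset.subset_insert _ _),
          Finset.mem_insert_of_mem hi₀, ?_⟩, hsub⟩
        intro hmem
        apply hex
        refine ⟨(insert j C₀).erase i₀, hmem, ?_, ?_, ?_⟩
        · simp [hij.symm]
        · have : ((insert j C₀).erase i₀).erase j = C₀.erase i₀ := by
            ext x
            simp only [Finset.mem_erase, Finset.mem_insert]
            constructor
            · rintro ⟨h1, h2, h3 | h3⟩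
              · exact absurd h3 h1
              · exact ⟨h2, h3⟩
            · rintro ⟨h1, h2⟩
              refine ⟨fun h => hj (h ▸ h2), h1, Or.inr h2⟩
          rw [this]
          exact hmin' i₀ hi₀ hi₀A
        · exact Finset.subset_erase.2 ⟨hsub, hjA⟩
  choose f hf using key
  have hinj : Set.InjOn f (↑(Finset.univ \ A) : Set (Fin n)) := by
    intro j hj k hk hjk
    have hjA : j ∉ A := by simpa using hj
    have hkA : k ∉ A := by simpa using hk
    have h1 := (hf j hjA).2
    have h2 := (hf k hkA).2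
    rw [hjk] at h1
    rcases h1 with ⟨a1, b1⟩ | ⟨a1, b1⟩ | ⟨a1, b1⟩ <;> rcases h2 with ⟨a2, b2⟩ | ⟨a2, b2⟩ | ⟨a2, b2⟩
    · rw [b1] at b2
      exact (Prod.mk.inj b2).2
    · rw [b1] at b2
      exact absurd (b2 ▸ a1) a2
    · rw [b1] at b2
      have := (Prod.mk.inj b2).1
      exact absurd (this ▸ Finset.mem_insert_self k C₀) a2
    · rw [b2] at b1
      exact absurd (b1 ▸ a2) a1
    · exact b1.symm.trans b2
    · rw [b2] at b1
      exact absurd (b1 ▸ hi₀) a1
    · rw [b1] at b2
      have := (Prod.mk.inj b2).1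
      exact absurd (this ▸ Finset.mem_insert_self j C₀) a1
    · rw [b1] at b2
      exact absurd (b2 ▸ hi₀) a2
    · rw [b1] at b2
      have h3 := (Prod.mk.inj b2).1
      have h4 : j ∈ insert k C₀ := h3 ▸ Finset.mem_insert_self j C₀
      rcases Finset.mem_insert.1 h4 with h5 | h5
      · exact h5
      · exact absurd h5 a1
  have hmaps : ∀ j ∈ Finset.univ \ A, f j ∈ (bd U).filter (fun p => A ⊆ p.1.erase p.2) := by
    intro j hj
    exact (hf j (by simpa using hj)).1
  have := Finset.card_le_card_of_injOn f hmaps hinj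
  rwa [Finset.card_sdiff_of_subset (Finset.subset_univ A), Finset.card_univ,
    Fintype.card_fin] at this

/-- Counting incidences of an up-set by boundary pairs. -/
lemma upset_count {U : Finset (Finset (Fin n))} (hup : ∀ C ∈ U, ∀ D, C ⊆ D → D ∈ U) :
    2 * ∑ C ∈ U, C.card = n * U.card + (bd U).card := by
  classical
  -- pairs `(C,i)` with `i ∈ C ∈ U`
  have hP : (((U ×ˢ (Finset.univ : Finset (Fin n))).filter (fun p => p.2 ∈ p.1)).card) =
      ∑ C ∈ U, C.card := by
    rw [Finset.card_filter, Finset.sum_product]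
    refine Finset.sum_congr rfl fun C _ => ?_
    rw [← Finset.card_filter]
    congr 1
    ext x; simp
  have hQ : (((U ×ˢ (Finset.univ : Finset (Fin n))).filter (fun p => p.2 ∉ p.1)).card) +
      ∑ C ∈ U, C.card = n * U.card := by
    rw [← hP, add_comm, Finset.card_filter_add_card_filter_not]
    simp [Finset.card_product, mul_comm]
  have hsplit : (((U ×ˢ (Finset.univ : Finset (Fin n))).filter (fun p => p.2 ∈ p.1)).card) =
      (((U ×ˢ (Finset.univ : Finset (Fin n))).filter (fun p => p.2 ∉ p.1)).card) +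
        (bd U).card := by
    rw [← Finset.card_filter_add_card_filter_not
      (s := (U ×ˢ (Finset.univ : Finset (Fin n))).filter (fun p => p.2 ∈ p.1))
      (p := fun p => p.1.erase p.2 ∈ U)]
    congr 1
    · refine Finset.card_bij (fun p _ => (p.1.erase p.2, p.2)) ?_ ?_ ?_
      · intro p hp
        simp only [Finset.mem_filter, Finset.mem_product, Finset.mem_univ, and_true] at hp ⊢
        exact ⟨hp.2, by simp⟩
      · intro p hp q hq hpq
        simp only [Finset.mem_filter, Finset.mem_product, Finset.mem_univ, and_true] at hp hq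
        obtain ⟨h1, h2⟩ := Prod.mk.inj hpq
        refine Prod.ext ?_ h2
        rw [← Finset.insert_erase hp.1.2, ← Finset.insert_erase hq.1.2, h1, h2]
      · intro p hp
        simp only [Finset.mem_filter, Finset.mem_product, Finset.mem_univ, and_true] at hp
        refine ⟨(insert p.2 p.1, p.2), ?_, ?_⟩
        · simp only [Finset.mem_filter, Finset.mem_product, Finset.mem_univ, and_true]
          refine ⟨⟨hup p.1 hp.1 _ (Finset.subset_insert _ _), Finset.mem_insert_self _ _⟩, ?_⟩
          rw [Finset.erase_insert hp.2]; exact hp.1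
        · simp [Finset.erase_insert hp.2]
    · congr 1
      ext p
      simp only [bd, Finset.mem_filter, Finset.mem_product, Finset.mem_univ, and_true, true_and]
      tauto
  omega

/-- In a family which becomes full after at most two closures the average size of a member is at
least half the size of the ground set. -/
lemma average_of_two {F : Finset (Finset (Fin n))} (hF : IsUnionClosed F)
    (h2 : ucClosure (ucClosure F) = allNonempty n) :
    n * F.card ≤ 2 * ∑ A ∈ F, A.card := by
  classical
  set U := F.filter (fun A => ∀ B, A ⊆ B → B ∈ F) with hU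
  set M := F.filter (fun A => ¬ ∀ B, A ⊆ B → B ∈ F) with hM
  have hUup : ∀ C ∈ U, ∀ D, C ⊆ D → D ∈ U := by
    intro C hC D hCD
    rw [hU, Finset.mem_filter] at hC ⊢
    exact ⟨hC.2 D hCD, fun B hB => hC.2 B (hCD.trans hB)⟩
  have htop : Finset.univ ∈ U := by
    rw [hU, Finset.mem_filter]
    refine ⟨hF.2.1, fun B hB => ?_⟩
    rw [Finset.univ_subset_iff.1 hB]; exact hF.2.1
  have hcard : F.card = U.card + M.card := (Finset.card_filter_add_card_filter_not _).symm
  have hsum : ∑ A ∈ F, A.card = ∑ A ∈ U, A.card + ∑ A ∈ M, A.card :=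
    (Finset.sum_filter_add_sum_filter_not F _ _).symm
  have hMU : ∀ A ∈ M, A ∉ U := by
    intro A hA hA'
    rw [hM, Finset.mem_filter] at hA
    rw [hU, Finset.mem_filter] at hA'
    exact hA.2 hA'.2
  -- unions of distinct members of `M` are in `U`
  have hunion : ∀ A ∈ M, ∀ B ∈ M, A ≠ B → A ∪ B ∈ U := by
    intro A hA B hB hAB
    have hA' := (Finset.mem_filter.1 hA).1
    have hB' := (Finset.mem_filter.1 hB).1
    have hABF := hF.2.2 A hA' B hB'
    rw [hU, Finset.mem_filter]
    refine ⟨hABF, fun C hC => ?_⟩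
    by_cases hsub : A ∪ B = A
    · -- then `B ⊂ A`
      have hBA : B ⊂ A := by
        refine Finset.ssubset_iff_subset_ne.2 ⟨?_, hAB.symm⟩
        exact Finset.union_eq_left.1 hsub
      exact chain_mem hF h2 hB' hA' hBA (Finset.union_subset_left hC)
    · have : A ⊂ A ∪ B :=
        Finset.ssubset_iff_subset_ne.2 ⟨Finset.subset_union_left, fun h => hsub h.symm⟩
      exact chain_mem hF h2 hA' hABF this hC
  have hdisj : ∀ A ∈ M, ∀ B ∈ M, A ≠ B →
      Disjoint ((bd U).filter (fun p => A ⊆ p.1.erase p.2))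
        ((bd U).filter (fun p => B ⊆ p.1.erase p.2)) := by
    intro A hA B hB hAB
    rw [Finset.disjoint_left]
    intro p hp hp'
    rw [Finset.mem_filter] at hp hp'
    have h3 : A ∪ B ⊆ p.1.erase p.2 := Finset.union_subset hp.2 hp'.2
    have h4 := hUup _ (hunion A hA B hB hAB) _ h3
    have h5 := hp.1
    simp only [bd, Finset.mem_filter] at h5
    exact h5.2.2.2 h4
  have hbd : ∑ A ∈ M, (n - A.card) ≤ (bd U).card := by
    calc ∑ A ∈ M, (n - A.card)
        ≤ ∑ A ∈ M, ((bd U).filter (fun p => A ⊆ p.1.erase p.2)).card :=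
          Finset.sum_le_sum fun A hA => card_bd_above hUup htop (hMU A hA)
      _ = (M.biUnion fun A => (bd U).filter (fun p => A ⊆ p.1.erase p.2)).card :=
          (Finset.card_biUnion hdisj).symm
      _ ≤ (bd U).card := by
          apply Finset.card_le_card
          intro p hp
          rw [Finset.mem_biUnion] at hp
          obtain ⟨A, _, hA⟩ := hp
          exact (Finset.mem_filter.1 hA).1
  have hcount := upset_count hUup
  have hM2 : n * M.card ≤ ∑ A ∈ M, (n - A.card) + ∑ A ∈ M, A.card := by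
    rw [← Finset.sum_add_distrib, mul_comm, ← smul_eq_mul]
    refine Finset.card_nsmul_le_sum _ _ _ fun A _ => ?_
    omega
  rw [hcard, hsum, Nat.mul_add]
  omega

/-- Every 2-dense union-closed family over `[n]` has an element which lies in at least half of
its members. -/
theorem result (n : ℕ) (hn : 1 ≤ n) (F : Finset (Finset (Fin n))) (hF : IsUnionClosed F)
    (h2 : IsDense 2 F) : ∃ i : Fin n, F.card ≤ 2 * (F.filter (fun A => i ∈ A)).card := by
  classical
  have h : ucClosure (ucClosure F) = allNonempty n := h2.1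
  have havg := average_of_two hF h
  by_contra hcon
  push Not at hcon
  have hdc : ∑ i : Fin n, (F.filter (fun A => i ∈ A)).card = ∑ A ∈ F, A.card := by
    simp_rw [Finset.card_filter]
    rw [Finset.sum_comm]
    refine Finset.sum_congr rfl fun A _ => ?_
    rw [← Finset.card_filter]
    congr 1
    ext x; simp
  have hlt : ∑ i : Fin n, 2 * (F.filter (fun A => i ∈ A)).card < ∑ _i : Fin n, F.card := by
    apply Finset.sum_lt_sum_of_nonempty
    · exact ⟨⟨0, hn⟩, Finset.mem_univ _⟩
    · intro i _
      exact hcon i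
  rw [← Finset.mul_sum, hdc] at hlt
  simp at hlt
  omega

end Pool.Agent.Results.MP_5b71d7_co.TwoDense
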